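import Mathlib

/-!
# MP_a30120_gt, Q1: a two-vertex simple closed quasigeodesic on the regular tetrahedron which is
not an edge-loop

On the regular tetrahedron with vertices `A = (1,1,1)`, `B = (1,-1,-1)`, `C = (-1,1,-1)`,
`D = (-1,-1,1)` we exhibit a closed polygon with eight vertices on the surface, which is a simple
closed quasigeodesic, passes through exactly the two vertices `A` and `B` of the tetrahedron, and
does not contain the edge `AB`.  It is the union of the two geodesic arcs from `A` to `B` which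
unfold, in the lattice of the regular tetrahedron, to the vectors `(1,-4)` and `(1,-2)`.
-/

namespace Pool.Agent.Results.MP_a30120_gt.RegularTetrahedron

open Set
open scoped EuclideanGeometry Real

/-- Euclidean three-space. -/
abbrev E3 := EuclideanSpace ℝ (Fin 3)

/-- The (closed triangular) face of the tetrahedron `V` with vertices `V i, V j, V k`. -/
def face (V : Fin 4 → E3) (i j k : Fin 4) : Set E3 := convexHull ℝ {V i, V j, V k}

/-- `i, j, k, l` are the four indices in some order. -/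
def AllIndices (i j k l : Fin 4) : Prop :=
  i ≠ j ∧ i ≠ k ∧ i ≠ l ∧ j ≠ k ∧ j ≠ l ∧ k ≠ l

/-- The total surface angle `θ` at the vertex `V i`, where `i, j, k, l` are the four indices: the
sum of the angles at `V i` of the three faces containing `V i`. -/
noncomputable def totalAngle (V : Fin 4 → E3) (i j k l : Fin 4) : ℝ :=
  ∠ (V j) (V i) (V k) + ∠ (V k) (V i) (V l) + ∠ (V l) (V i) (V j)

/-- The quasigeodesic condition, on the surface of the tetrahedron `V`, at a point `p` of a
polygonal path which arrives at `p` along the segment from `q` and leaves `p` along the segment to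
`r`, each of the two segments lying in a face: both surface angles at `p` are at most `π`.
The four cases:
* `p, q, r` lie in one face and the path is straight at `p`;
* `p` is an interior point of the edge `V i V j`, the segments lie in the two faces containing this
  edge, and the two surface angles are `∠ q p (V i) + ∠ (V i) p r` and `∠ q p (V j) + ∠ (V j) p r`;
* `p = V i` is a vertex, both segments lie in the same face; the two surface angles are `∠ q p r`
  and the total angle minus `∠ q p r`;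
* `p = V i` is a vertex, the segments lie in the two faces containing the edge `V i V j`; the two
  surface angles are `∠ q p (V j) + ∠ (V j) p r` and the total angle minus this sum. -/
def QuasiAt (V : Fin 4 → E3) (q p r : E3) : Prop :=
  ∃ i j k l : Fin 4, AllIndices i j k l ∧
    ((q ∈ face V i j k ∧ p ∈ face V i j k ∧ r ∈ face V i j k ∧ ∠ q p r = π) ∨
     (p ∈ openSegment ℝ (V i) (V j) ∧ q ∈ face V i j k ∧ r ∈ face V i j l ∧
        ∠ q p (V i) + ∠ (V i) p r ≤ π ∧ ∠ q p (V j) + ∠ (V j) p r ≤ π) ∨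
     (p = V i ∧ q ∈ face V i j k ∧ r ∈ face V i j k ∧
        ∠ q p r ≤ π ∧ totalAngle V i j k l - ∠ q p r ≤ π) ∨
     (p = V i ∧ q ∈ face V i j k ∧ r ∈ face V i j l ∧
        ∠ q p (V j) + ∠ (V j) p r ≤ π ∧
        totalAngle V i j k l - (∠ q p (V j) + ∠ (V j) p r) ≤ π))

/-- The closed polygonal curve with vertices `P 0, P 1, …, P (n-1)` (indices modulo `n`). -/
def carrier {n : ℕ} [NeZero n] (P : Fin n → E3) : Set E3 :=
  ⋃ i, segment ℝ (P i) (P (i + 1))

/-- The closed polygon `P` is simple: its vertices are pairwise distinct, and two different sides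
meet at most in common endpoints. -/
def IsSimple {n : ℕ} [NeZero n] (P : Fin n → E3) : Prop :=
  Function.Injective P ∧ ∀ i j, i ≠ j →
    segment ℝ (P i) (P (i + 1)) ∩ segment ℝ (P j) (P (j + 1)) ⊆
      ({P i, P (i + 1)} ∩ {P j, P (j + 1)} : Set E3)

/-- The closed polygon `P` is a simple closed quasigeodesic on the surface of the tetrahedron with
vertices `V`. -/
def IsSimpleClosedQuasigeodesic (V : Fin 4 → E3) {n : ℕ} [NeZero n] (P : Fin n → E3) : Prop :=
  3 ≤ n ∧ IsSimple P ∧ ∀ i, QuasiAt V (P (i - 1)) (P i) (P (i + 1))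

/-! ### The example -/

/-- the vertices of the regular tetrahedron -/
def V : Fin 4 → E3 := ![!₂[1, 1, 1], !₂[1, -1, -1], !₂[-1, 1, -1], !₂[-1, -1, 1]]

/-- first coordinates -/
noncomputable def X : Fin 8 → ℝ := ![1, -1, -1/3, 1, -1/3, -1, 1, -1]
/-- second coordinates -/
noncomputable def Y : Fin 8 → ℝ := ![1, 1/2, 1/3, 0, -1/3, -1/2, -1, 0]
/-- third coordinates -/
noncomputable def Z : Fin 8 → ℝ := ![1, -1/2, -1, 0, 1, 1/2, -1, 0]

/-- the closed polygon -/
noncomputable def P : Fin 8 → E3 := fun i => !₂[X i, Y i, Z i]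

theorem mem_seg {a b x : E3} (h : x ∈ segment ℝ a b) : ∃ s : ℝ, 0 ≤ s ∧ s ≤ 1 ∧
    x 0 = a 0 + s * (b 0 - a 0) ∧ x 1 = a 1 + s * (b 1 - a 1) ∧ x 2 = a 2 + s * (b 2 - a 2) := by
  rw [segment_eq_image] at h
  obtain ⟨s, ⟨h0, h1⟩, rfl⟩ := h
  refine ⟨s, h0, h1, ?_, ?_, ?_⟩ <;>
  · simp only [PiLp.add_apply, PiLp.smul_apply, smul_eq_mul]
    ring

theorem ext3 {x y : E3} (h0 : x 0 = y 0) (h1 : x 1 = y 1) (h2 : x 2 = y 2) : x = y := by
  ext i
  fin_cases i
  · exact h0
  · exact h1
  · exact h2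

theorem sep (i j : Fin 8) (hij : i < j) (s t : ℝ) (hs0 : 0 ≤ s) (hs1 : s ≤ 1) (ht0 : 0 ≤ t)
    (ht1 : t ≤ 1) (h0 : X i + s * (X (i + 1) - X i) = X j + t * (X (j + 1) - X j))
    (h1 : Y i + s * (Y (i + 1) - Y i) = Y j + t * (Y (j + 1) - Y j))
    (h2 : Z i + s * (Z (i + 1) - Z i) = Z j + t * (Z (j + 1) - Z j)) :
    (j = i + 1 ∧ s = 1 ∧ t = 0) ∨ (i = j + 1 ∧ s = 0 ∧ t = 1) := by
  fin_cases i <;> fin_cases j <;>
    first
    | (exfalso; revert hij; decide)
    | (simp [X, Y, Z] at h0 h1 h2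
       first
       | (exfalso; linarith)
       | (left; exact ⟨rfl, by linarith, by linarith⟩)
       | (right; exact ⟨rfl, by linarith, by linarith⟩))

theorem P_inj : Function.Injective P := by
  intro i j h
  have h0 : X i = X j := congrFun (congrArg (fun v : E3 => (v : Fin 3 → ℝ)) h) 0
  have h1 : Y i = Y j := congrFun (congrArg (fun v : E3 => (v : Fin 3 → ℝ)) h) 1
  have h2 : Z i = Z j := congrFun (congrArg (fun v : E3 => (v : Fin 3 → ℝ)) h) 2
  fin_cases i <;> fin_cases j <;>
    first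
    | rfl
    | (exfalso; norm_num [X] at h0; done)
    | (exfalso; norm_num [Y] at h1; done)
    | (exfalso; norm_num [Z] at h2; done)

theorem seg_coord (i : Fin 8) (x : E3) (h : x ∈ segment ℝ (P i) (P (i + 1))) :
    ∃ s : ℝ, 0 ≤ s ∧ s ≤ 1 ∧ x 0 = X i + s * (X (i + 1) - X i) ∧
      x 1 = Y i + s * (Y (i + 1) - Y i) ∧ x 2 = Z i + s * (Z (i + 1) - Z i) :=
  mem_seg h

theorem simple_lt (i j : Fin 8) (hij : i < j) (x : E3) (hi : x ∈ segment ℝ (P i) (P (i + 1)))
    (hj : x ∈ segment ℝ (P j) (P (j + 1))) :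
    x ∈ ({P i, P (i + 1)} ∩ {P j, P (j + 1)} : Set E3) := by
  obtain ⟨s, s0, s1, a0, a1, a2⟩ := seg_coord i x hi
  obtain ⟨t, t0, t1, b0, b1, b2⟩ := seg_coord j x hj
  rcases sep i j hij s t s0 s1 t0 t1 (a0.symm.trans b0) (a1.symm.trans b1) (a2.symm.trans b2) with
    ⟨rfl, rfl, rfl⟩ | ⟨rfl, rfl, rfl⟩
  · have hx : x = P (i + 1) := by
      apply ext3
      · rw [b0]; show _ = X (i + 1); ring
      · rw [b1]; show _ = Y (i + 1); ring
      · rw [b2]; show _ = Z (i + 1); ring
    rw [hx]
    exact ⟨Or.inr rfl, Or.inl rfl⟩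
  · have hx : x = P (j + 1) := by
      apply ext3
      · rw [a0]; show _ = X (j + 1); ring
      · rw [a1]; show _ = Y (j + 1); ring
      · rw [a2]; show _ = Z (j + 1); ring
    rw [hx]
    exact ⟨Or.inl rfl, Or.inr rfl⟩

theorem P_simple : IsSimple P := by
  refine ⟨P_inj, ?_⟩
  rintro i j hij x ⟨hi, hj⟩
  rcases lt_or_gt_of_ne hij with h | h
  · exact simple_lt i j h x hi hj
  · exact (simple_lt j i h x hj hi).symm

theorem mem_face {i j k : Fin 4} {x : E3} (a b c : ℝ) (ha : 0 ≤ a) (hb : 0 ≤ b) (hc : 0 ≤ c)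
    (habc : a + b + c = 1) (hx : x = a • V i + b • V j + c • V k) : x ∈ face V i j k := by
  have h := (convex_convexHull ℝ ({V i, V j, V k} : Set E3)).sum_mem
    (t := (Finset.univ : Finset (Fin 3))) (w := ![a, b, c]) (z := ![V i, V j, V k])
    (by
      intro m _
      fin_cases m
      · exact ha
      · exact hb
      · exact hc)
    (by
      rw [Fin.sum_univ_three]
      exact habc)
    (by
      intro m _
      apply subset_convexHull
      fin_cases m
      · left; rfl
      · right; left; rfl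
      · right; right; rfl)
  rw [Fin.sum_univ_three] at h
  rw [hx]
  exact h

theorem mem_open {i j : Fin 4} {x : E3} (a b : ℝ) (ha : 0 < a) (hb : 0 < b) (hab : a + b = 1)
    (hx : x = a • V i + b • V j) : x ∈ openSegment ℝ (V i) (V j) :=
  ⟨a, b, ha, hb, hab, hx.symm⟩

theorem angle_sum {q p r W : E3} (k : ℝ) (hk : 0 < k)
    (h1 : (r 0 - p 0) ^ 2 + (r 1 - p 1) ^ 2 + (r 2 - p 2) ^ 2
      = k ^ 2 * ((q 0 - p 0) ^ 2 + (q 1 - p 1) ^ 2 + (q 2 - p 2) ^ 2))
    (h2 : (W 0 - p 0) * (r 0 - p 0) + (W 1 - p 1) * (r 1 - p 1) + (W 2 - p 2) * (r 2 - p 2)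
      = -(k * ((q 0 - p 0) * (W 0 - p 0) + (q 1 - p 1) * (W 1 - p 1) +
          (q 2 - p 2) * (W 2 - p 2)))) :
    ∠ q p W + ∠ W p r = π := by
  unfold EuclideanGeometry.angle InnerProductGeometry.angle
  have e1 : ‖r -ᵥ p‖ = k * ‖q -ᵥ p‖ := by
    have hsq : ‖r -ᵥ p‖ ^ 2 = (k * ‖q -ᵥ p‖) ^ 2 := by
      rw [mul_pow, EuclideanSpace.norm_sq_eq, EuclideanSpace.norm_sq_eq, Fin.sum_univ_three,
        Fin.sum_univ_three]
      simp only [vsub_eq_sub, PiLp.sub_apply, Real.norm_eq_abs, sq_abs]
      exact h1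
    exact (sq_eq_sq₀ (norm_nonneg _) (mul_nonneg hk.le (norm_nonneg _))).1 hsq
  have e2 : inner ℝ (W -ᵥ p) (r -ᵥ p) = -(k * inner ℝ (q -ᵥ p) (W -ᵥ p)) := by
    rw [PiLp.inner_apply, PiLp.inner_apply, Fin.sum_univ_three, Fin.sum_univ_three]
    simp only [vsub_eq_sub, PiLp.sub_apply, RCLike.inner_apply, conj_trivial]
    linarith [h2]
  have e3 : inner ℝ (W -ᵥ p) (r -ᵥ p) / (‖W -ᵥ p‖ * ‖r -ᵥ p‖)
      = -(inner ℝ (q -ᵥ p) (W -ᵥ p) / (‖q -ᵥ p‖ * ‖W -ᵥ p‖)) := by
    rw [e1, e2]
    have : ‖W -ᵥ p‖ * (k * ‖q -ᵥ p‖) = k * (‖q -ᵥ p‖ * ‖W -ᵥ p‖) := by ring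
    rw [this, neg_div, mul_div_mul_left _ _ hk.ne']
  rw [e3, Real.arccos_neg]
  ring

/-- all faces of the tetrahedron are equilateral -/
theorem angle_face (i j k : Fin 4) (hij : i ≠ j) (hik : i ≠ k) (hjk : j ≠ k) :
    ∠ (V j) (V i) (V k) = π / 3 := by
  unfold EuclideanGeometry.angle InnerProductGeometry.angle
  have hn : ∀ a b : Fin 4, a ≠ b → ‖V a -ᵥ V b‖ = Real.sqrt 8 := by
    intro a b hab
    rw [EuclideanSpace.norm_eq, Fin.sum_univ_three]
    congr 1
    fin_cases a <;> fin_cases b <;>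
      first
      | exact absurd rfl hab
      | (simp [V]; norm_num)
  have hi : inner ℝ (V j -ᵥ V i) (V k -ᵥ V i) = 4 := by
    rw [PiLp.inner_apply, Fin.sum_univ_three]
    fin_cases i <;> fin_cases j <;> fin_cases k <;>
      first
      | exact absurd rfl hij
      | exact absurd rfl hik
      | exact absurd rfl hjk
      | (simp [V]; norm_num)
  rw [hn j i hij.symm, hn k i hik.symm, hi, Real.mul_self_sqrt (by norm_num)]
  rw [show (4 : ℝ) / 8 = 1 / 2 by norm_num, ← Real.cos_pi_div_three,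
    Real.arccos_cos (by positivity) (by linarith [Real.pi_pos])]

theorem total (i j k l : Fin 4) (h : AllIndices i j k l) : totalAngle V i j k l = π := by
  obtain ⟨h1, h2, h3, h4, h5, h6⟩ := h
  unfold totalAngle
  rw [angle_face i j k h1 h2 h4, angle_face i k l h2 h3 h6, angle_face i l j h3 h1 h5.symm]
  ring

/-- the condition at a point in the interior of an edge -/
theorem quasi_edge {q p r : E3} (i j k l : Fin 4) (h : AllIndices i j k l)
    (hp : p ∈ openSegment ℝ (V i) (V j)) (hq : q ∈ face V i j k) (hr : r ∈ face V i j l)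
    (h1 : ∠ q p (V i) + ∠ (V i) p r = π) (h2 : ∠ q p (V j) + ∠ (V j) p r = π) :
    QuasiAt V q p r :=
  ⟨i, j, k, l, h, Or.inr (Or.inl ⟨hp, hq, hr, h1.le, h2.le⟩)⟩

/-- the condition at a vertex, both sides lying in the same face -/
theorem quasi_vertex {q p r : E3} (i j k l : Fin 4) (h : AllIndices i j k l)
    (hp : p = V i) (hq : q ∈ face V i j k) (hr : r ∈ face V i j k) : QuasiAt V q p r := by
  refine ⟨i, j, k, l, h, Or.inr (Or.inr (Or.inl ⟨hp, hq, hr, EuclideanGeometry.angle_le_pi _ _ _, ?_⟩))⟩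
  rw [total i j k l h]
  linarith [EuclideanGeometry.angle_nonneg q p r]

/-- numerical check of membership in a face -/
theorem face_mem {i j k : Fin 4} (m : Fin 8) (a b c : ℝ) (ha : 0 ≤ a) (hb : 0 ≤ b) (hc : 0 ≤ c)
    (habc : a + b + c = 1)
    (h0 : X m = a * (V i) 0 + b * (V j) 0 + c * (V k) 0)
    (h1 : Y m = a * (V i) 1 + b * (V j) 1 + c * (V k) 1)
    (h2 : Z m = a * (V i) 2 + b * (V j) 2 + c * (V k) 2) : P m ∈ face V i j k := by
  refine mem_face a b c ha hb hc habc (ext3 ?_ ?_ ?_)
  · exact h0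
  · exact h1
  · exact h2

theorem open_mem {i j : Fin 4} (m : Fin 8) (a b : ℝ) (ha : 0 < a) (hb : 0 < b)
    (hab : a + b = 1)
    (h0 : X m = a * (V i) 0 + b * (V j) 0)
    (h1 : Y m = a * (V i) 1 + b * (V j) 1)
    (h2 : Z m = a * (V i) 2 + b * (V j) 2) : P m ∈ openSegment ℝ (V i) (V j) := by
  refine mem_open a b ha hb hab (ext3 ?_ ?_ ?_)
  · exact h0
  · exact h1
  · exact h2

theorem P_quasi (i : Fin 8) : QuasiAt V (P (i - 1)) (P i) (P (i + 1)) := by
  fin_cases i
  · show QuasiAt V (P 7) (P 0) (P 1)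
    refine quasi_vertex 0 2 3 1 (by unfold AllIndices; decide) ?_ ?_ ?_
    · exact ext3 (by simp [P, V, X]) (by simp [P, V, Y]) (by simp [P, V, Z])
    · exact face_mem 7 0 (1/2) (1/2) (by norm_num) (by norm_num) (by norm_num) (by norm_num)
        (by simp [V, X]; norm_num) (by simp [V, Y]) (by simp [V, Z])
    · exact face_mem 1 0 (3/4) (1/4) (by norm_num) (by norm_num) (by norm_num) (by norm_num)
        (by simp [V, X]; norm_num) (by simp [V, Y]; norm_num) (by simp [V, Z]; norm_num)
  · show QuasiAt V (P 0) (P 1) (P 2)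
    refine quasi_edge 2 3 0 1 (by unfold AllIndices; decide) ?_ ?_ ?_ ?_ ?_
    · exact open_mem 1 (3/4) (1/4) (by norm_num) (by norm_num) (by norm_num)
        (by simp [V, X]; norm_num) (by simp [V, Y]; norm_num) (by simp [V, Z]; norm_num)
    · exact face_mem 0 0 0 1 (by norm_num) (by norm_num) (by norm_num) (by norm_num)
        (by simp [V, X]) (by simp [V, Y]) (by simp [V, Z])
    · exact face_mem 2 (2/3) 0 (1/3) (by norm_num) (by norm_num) (by norm_num) (by norm_num)
        (by simp [V, X]; norm_num) (by simp [V, Y]; norm_num) (by simp [V, Z]; norm_num)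
    · exact angle_sum (1/3) (by norm_num) (by simp [P, X, Y, Z]; norm_num)
        (by simp [P, X, Y, Z, V]; norm_num)
    · exact angle_sum (1/3) (by norm_num) (by simp [P, X, Y, Z]; norm_num)
        (by simp [P, X, Y, Z, V]; norm_num)
  · show QuasiAt V (P 1) (P 2) (P 3)
    refine quasi_edge 2 1 3 0 (by unfold AllIndices; decide) ?_ ?_ ?_ ?_ ?_
    · exact open_mem 2 (2/3) (1/3) (by norm_num) (by norm_num) (by norm_num)
        (by simp [V, X]; norm_num) (by simp [V, Y]; norm_num) (by simp [V, Z]; norm_num)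
    · exact face_mem 1 (3/4) 0 (1/4) (by norm_num) (by norm_num) (by norm_num) (by norm_num)
        (by simp [V, X]; norm_num) (by simp [V, Y]; norm_num) (by simp [V, Z]; norm_num)
    · exact face_mem 3 0 (1/2) (1/2) (by norm_num) (by norm_num) (by norm_num) (by norm_num)
        (by simp [V, X]; norm_num) (by simp [V, Y]) (by simp [V, Z])
    · exact angle_sum 2 (by norm_num) (by simp [P, X, Y, Z]; norm_num)
        (by simp [P, X, Y, Z, V]; norm_num)
    · exact angle_sum 2 (by norm_num) (by simp [P, X, Y, Z]; norm_num)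
        (by simp [P, X, Y, Z, V]; norm_num)
  · show QuasiAt V (P 2) (P 3) (P 4)
    refine quasi_edge 0 1 2 3 (by unfold AllIndices; decide) ?_ ?_ ?_ ?_ ?_
    · exact open_mem 3 (1/2) (1/2) (by norm_num) (by norm_num) (by norm_num)
        (by simp [V, X]; norm_num) (by simp [V, Y]) (by simp [V, Z])
    · exact face_mem 2 0 (1/3) (2/3) (by norm_num) (by norm_num) (by norm_num) (by norm_num)
        (by simp [V, X]; norm_num) (by simp [V, Y]; norm_num) (by simp [V, Z]; norm_num)
    · exact face_mem 4 (1/3) 0 (2/3) (by norm_num) (by norm_num) (by norm_num) (by norm_num)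
        (by simp [V, X]; norm_num) (by simp [V, Y]; norm_num) (by simp [V, Z]; norm_num)
    · exact angle_sum 1 (by norm_num) (by simp [P, X, Y, Z]; norm_num)
        (by simp [P, X, Y, Z, V]; norm_num)
    · exact angle_sum 1 (by norm_num) (by simp [P, X, Y, Z]; norm_num)
        (by simp [P, X, Y, Z, V]; norm_num)
  · show QuasiAt V (P 3) (P 4) (P 5)
    refine quasi_edge 0 3 1 2 (by unfold AllIndices; decide) ?_ ?_ ?_ ?_ ?_
    · exact open_mem 4 (1/3) (2/3) (by norm_num) (by norm_num) (by norm_num)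
        (by simp [V, X]; norm_num) (by simp [V, Y]; norm_num) (by simp [V, Z]; norm_num)
    · exact face_mem 3 (1/2) 0 (1/2) (by norm_num) (by norm_num) (by norm_num) (by norm_num)
        (by simp [V, X]; norm_num) (by simp [V, Y]) (by simp [V, Z])
    · exact face_mem 5 0 (3/4) (1/4) (by norm_num) (by norm_num) (by norm_num) (by norm_num)
        (by simp [V, X]; norm_num) (by simp [V, Y]; norm_num) (by simp [V, Z]; norm_num)
    · exact angle_sum (1/2) (by norm_num) (by simp [P, X, Y, Z]; norm_num)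
        (by simp [P, X, Y, Z, V]; norm_num)
    · exact angle_sum (1/2) (by norm_num) (by simp [P, X, Y, Z]; norm_num)
        (by simp [P, X, Y, Z, V]; norm_num)
  · show QuasiAt V (P 4) (P 5) (P 6)
    refine quasi_edge 2 3 0 1 (by unfold AllIndices; decide) ?_ ?_ ?_ ?_ ?_
    · exact open_mem 5 (1/4) (3/4) (by norm_num) (by norm_num) (by norm_num)
        (by simp [V, X]; norm_num) (by simp [V, Y]; norm_num) (by simp [V, Z]; norm_num)
    · exact face_mem 4 0 (2/3) (1/3) (by norm_num) (by norm_num) (by norm_num) (by norm_num)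
        (by simp [V, X]; norm_num) (by simp [V, Y]; norm_num) (by simp [V, Z]; norm_num)
    · exact face_mem 6 0 0 1 (by norm_num) (by norm_num) (by norm_num) (by norm_num)
        (by simp [V, X]) (by simp [V, Y]) (by simp [V, Z])
    · exact angle_sum 3 (by norm_num) (by simp [P, X, Y, Z]; norm_num)
        (by simp [P, X, Y, Z, V]; norm_num)
    · exact angle_sum 3 (by norm_num) (by simp [P, X, Y, Z]; norm_num)
        (by simp [P, X, Y, Z, V]; norm_num)
  · show QuasiAt V (P 5) (P 6) (P 7)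
    refine quasi_vertex 1 2 3 0 (by unfold AllIndices; decide) ?_ ?_ ?_
    · exact ext3 (by simp [P, V, X]) (by simp [P, V, Y]) (by simp [P, V, Z])
    · exact face_mem 5 0 (1/4) (3/4) (by norm_num) (by norm_num) (by norm_num) (by norm_num)
        (by simp [V, X]; norm_num) (by simp [V, Y]; norm_num) (by simp [V, Z]; norm_num)
    · exact face_mem 7 0 (1/2) (1/2) (by norm_num) (by norm_num) (by norm_num) (by norm_num)
        (by simp [V, X]; norm_num) (by simp [V, Y]) (by simp [V, Z])
  · show QuasiAt V (P 6) (P 7) (P 0)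
    refine quasi_edge 2 3 1 0 (by unfold AllIndices; decide) ?_ ?_ ?_ ?_ ?_
    · exact open_mem 7 (1/2) (1/2) (by norm_num) (by norm_num) (by norm_num)
        (by simp [V, X]; norm_num) (by simp [V, Y]) (by simp [V, Z])
    · exact face_mem 6 0 0 1 (by norm_num) (by norm_num) (by norm_num) (by norm_num)
        (by simp [V, X]) (by simp [V, Y]) (by simp [V, Z])
    · exact face_mem 0 0 0 1 (by norm_num) (by norm_num) (by norm_num) (by norm_num)
        (by simp [V, X]) (by simp [V, Y]) (by simp [V, Z])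
    · exact angle_sum 1 (by norm_num) (by simp [P, X, Y, Z])
        (by simp [P, X, Y, Z, V])
    · exact angle_sum 1 (by norm_num) (by simp [P, X, Y, Z])
        (by simp [P, X, Y, Z, V])

theorem not_mem_carrier (x : E3)
    (h : ∀ i : Fin 8, ∀ s : ℝ, 0 ≤ s → s ≤ 1 → x 0 = X i + s * (X (i + 1) - X i) →
      x 1 = Y i + s * (Y (i + 1) - Y i) → x 2 = Z i + s * (Z (i + 1) - Z i) → False) :
    x ∉ carrier P := by
  intro hx
  rw [carrier, mem_iUnion] at hx
  obtain ⟨i, hi⟩ := hx
  obtain ⟨s, s0, s1, a0, a1, a2⟩ := seg_coord i x hi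
  exact h i s s0 s1 a0 a1 a2

theorem V0_mem : V 0 ∈ carrier P := by
  rw [carrier, mem_iUnion]
  refine ⟨0, ?_⟩
  have : V 0 = P 0 := ext3 (by simp [P, V, X]) (by simp [P, V, Y]) (by simp [P, V, Z])
  rw [this]
  exact left_mem_segment _ _ _

theorem V1_mem : V 1 ∈ carrier P := by
  rw [carrier, mem_iUnion]
  refine ⟨6, ?_⟩
  have : V 1 = P 6 := ext3 (by simp [P, V, X]) (by simp [P, V, Y]) (by simp [P, V, Z])
  rw [this]
  exact left_mem_segment _ _ _

theorem V2_not_mem : V 2 ∉ carrier P := by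
  apply not_mem_carrier
  intro i s s0 s1 h0 h1 h2
  fin_cases i <;>
  · simp [X, Y, Z, V] at h0 h1 h2
    linarith

theorem V3_not_mem : V 3 ∉ carrier P := by
  apply not_mem_carrier
  intro i s s0 s1 h0 h1 h2
  fin_cases i <;>
  · simp [X, Y, Z, V] at h0 h1 h2
    linarith

theorem mid_not_mem : (!₂[1, 1/2, 1/2] : E3) ∉ carrier P := by
  apply not_mem_carrier
  intro i s s0 s1 h0 h1 h2
  fin_cases i <;>
  · simp [X, Y, Z] at h0 h1 h2
    linarith

theorem V_affInd : AffineIndependent ℝ V := by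
  rw [affineIndependent_iff_linearIndependent_vsub ℝ _ (0 : Fin 4)]
  rw [← linearIndependent_equiv (finSuccAboveEquiv (0 : Fin 4))]
  rw [Fintype.linearIndependent_iff]
  intro c hc
  rw [Fin.sum_univ_three] at hc
  have h0 := congrArg (fun v : E3 => v 0) hc
  have h1 := congrArg (fun v : E3 => v 1) hc
  have h2 := congrArg (fun v : E3 => v 2) hc
  simp [finSuccAboveEquiv_apply, V] at h0 h1 h2
  intro i
  fin_cases i
  · show c 0 = 0
    linarith
  · show c 1 = 0
    linarith
  · show c 2 = 0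
    linarith

/-- **Negative answer to Q1 of MP_a30120_gt.** There are a tetrahedron (even a regular one) and a
simple closed quasigeodesic on its surface which passes through exactly two vertices `V u, V v` of
the tetrahedron, but does not contain the edge joining them. -/
theorem result : ∃ V : Fin 4 → E3, AffineIndependent ℝ V ∧
    (∀ i j, i ≠ j → dist (V i) (V j) = dist (V 0) (V 1)) ∧
    ∃ (n : ℕ) (_ : NeZero n) (P : Fin n → E3), IsSimpleClosedQuasigeodesic V P ∧
      ∃ u v : Fin 4, u ≠ v ∧ {w | V w ∈ carrier P} = {u, v} ∧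
        ¬ segment ℝ (V u) (V v) ⊆ carrier P := by
  refine ⟨V, V_affInd, ?_, 8, inferInstance, P, ⟨by norm_num, P_simple, P_quasi⟩, 0, 1,
    by decide, ?_, ?_⟩
  · intro i j hij
    rw [EuclideanSpace.dist_eq, EuclideanSpace.dist_eq, Fin.sum_univ_three, Fin.sum_univ_three]
    congr 1
    fin_cases i <;> fin_cases j <;>
      first
      | exact absurd rfl hij
      | (simp [V, Real.dist_eq]; done)
      | (simp [V, Real.dist_eq]; norm_num)
  · ext w
    simp only [mem_insert_iff, mem_singleton_iff]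
    constructor
    · intro hw
      fin_cases w
      · left; rfl
      · right; rfl
      · exact absurd hw V2_not_mem
      · exact absurd hw V3_not_mem
    · rintro (rfl | rfl)
      · exact V0_mem
      · exact V1_mem
  · intro hsub
    apply mid_not_mem
    apply hsub
    refine ⟨3/4, 1/4, by norm_num, by norm_num, by norm_num, ext3 ?_ ?_ ?_⟩
    · simp [V]; norm_num
    · simp [V]; norm_num
    · simp [V]; norm_num

end Pool.Agent.Results.MP_a30120_gt.RegularTetrahedron
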